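import Pool.Agent.Helper15.DAK.Stmts

/-! Row PHI of the project DAK: operators on `K` extend to `L`. -/

namespace Pool.Agent.Helper15.DAK

open Pool.Agent.Helper15.DAF

namespace S64

set_option linter.unusedSectionVars false

variable {K L : Type} [Field K] [Field L] [Algebra ℂ K] [Algebra ℂ L] [Algebra K L]
  [IsScalarTower ℂ K L] [FiniteDimensional K L]

/-- `Q` has finite order and extends `P`. -/
def Ext (P : Module.End ℂ K) (Q : Module.End ℂ L) : Prop :=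
  (∃ m, Ord m Q) ∧ ∀ a : K, Q (algebraMap K L a) = algebraMap K L (P a)

theorem ext_unique (hO : ST_ORD) (hU : ST_UNIQ) {P : Module.End ℂ K} {Q Q' : Module.End ℂ L}
    (h : Ext P Q) (h' : Ext P Q') : Q = Q' := by
  obtain ⟨-, -, hle, hadd, hsm, -, -⟩ := hO L
  obtain ⟨⟨m, hm⟩, hQ⟩ := h
  obtain ⟨⟨k, hk⟩, hQ'⟩ := h'
  have h1 : Ord (max m k) (Q + (-1 : ℂ) • Q') :=
    hadd _ _ _ (hle _ _ _ (le_max_left m k) hm)
      (hsm _ _ _ (hle _ _ _ (le_max_right m k) hk))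
  have h2 := hU K L _ _ h1 (by
    intro a
    rw [LinearMap.add_apply, LinearMap.smul_apply, hQ, hQ', neg_one_smul, add_neg_cancel])
  apply LinearMap.ext
  intro x
  have h3 := LinearMap.congr_fun h2 x
  rw [LinearMap.add_apply, LinearMap.smul_apply, neg_one_smul, LinearMap.zero_apply,
    ← sub_eq_add_neg, sub_eq_zero] at h3
  exact h3

theorem ext_mulOp (hO : ST_ORD) (a : K) :
    Ext (L := L) (mulOp a) (mulOp (algebraMap K L a)) := by
  refine ⟨⟨0, (hO L).1 _⟩, fun b => ?_⟩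
  simp [mulOp]

theorem ext_one (hO : ST_ORD) : Ext (K := K) (L := L) 1 1 := by
  refine ⟨⟨0, ?_⟩, fun b => rfl⟩
  have h := (hO L).1 1
  have h1 : mulOp (1 : L) = 1 := by
    ext x
    simp [mulOp]
  rwa [h1] at h

theorem ext_smul (hO : ST_ORD) (c : ℂ) {P : Module.End ℂ K} {Q : Module.End ℂ L} (h : Ext P Q) :
    Ext (c • P) (c • Q) := by
  obtain ⟨⟨m, hm⟩, hQ⟩ := h
  refine ⟨⟨m, (hO L).2.2.2.2.1 _ _ _ hm⟩, fun a => ?_⟩
  rw [LinearMap.smul_apply, LinearMap.smul_apply, hQ, Algebra.smul_def c (P a), map_mul,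
    ← IsScalarTower.algebraMap_apply, Algebra.smul_def]

theorem ext_add (hO : ST_ORD) {P P' : Module.End ℂ K} {Q Q' : Module.End ℂ L} (h : Ext P Q)
    (h' : Ext P' Q') : Ext (P + P') (Q + Q') := by
  obtain ⟨-, -, hle, hadd, -, -, -⟩ := hO L
  obtain ⟨⟨m, hm⟩, hQ⟩ := h
  obtain ⟨⟨k, hk⟩, hQ'⟩ := h'
  refine ⟨⟨max m k, hadd _ _ _ (hle _ _ _ (le_max_left m k) hm)
      (hle _ _ _ (le_max_right m k) hk)⟩, fun a => ?_⟩
  rw [LinearMap.add_apply, LinearMap.add_apply, hQ, hQ', map_add]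

theorem ext_mul (hO : ST_ORD) {P P' : Module.End ℂ K} {Q Q' : Module.End ℂ L} (h : Ext P Q)
    (h' : Ext P' Q') : Ext (P * P') (Q * Q') := by
  obtain ⟨-, -, -, -, -, hmul, -⟩ := hO L
  obtain ⟨⟨m, hm⟩, hQ⟩ := h
  obtain ⟨⟨k, hk⟩, hQ'⟩ := h'
  refine ⟨⟨m + k, hmul _ _ _ _ hm hk⟩, fun a => ?_⟩
  rw [Module.End.mul_apply, Module.End.mul_apply, hQ', hQ]

theorem ext_exists (hO : ST_ORD) (hL : ST_LIFTD) (P : Module.End ℂ K) (hP : P ∈ DK K) :
    ∃ Q : Module.End ℂ L, Ext P Q := by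
  induction hP using Algebra.adjoin_induction with
  | mem P hP =>
    rcases hP with ⟨a, rfl⟩ | hd
    · exact ⟨_, ext_mulOp hO a⟩
    · obtain ⟨D, hD, hDa⟩ := hL K L P hd
      exact ⟨D, ⟨1, (hO L).2.1 D hD⟩, hDa⟩
  | algebraMap c =>
    refine ⟨c • 1, ?_⟩
    rw [Algebra.algebraMap_eq_smul_one]
    exact ext_smul hO c (ext_one hO)
  | add P P' _ _ h h' =>
    obtain ⟨Q, hQ⟩ := h
    obtain ⟨Q', hQ'⟩ := h'
    exact ⟨_, ext_add hO hQ hQ'⟩
  | mul P P' _ _ h h' =>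
    obtain ⟨Q, hQ⟩ := h
    obtain ⟨Q', hQ'⟩ := h'
    exact ⟨_, ext_mul hO hQ hQ'⟩

end S64

open S64 in
theorem st_PHI (hO : ST_ORD) (hU : ST_UNIQ) (hL : ST_LIFTD) : ST_PHI := by
  intro K L _ _ _ _ _ _ _
  have hex : ∀ P : DK K, ∃ Q : Module.End ℂ L, Ext (P : Module.End ℂ K) Q :=
    fun P => ext_exists (K := K) (L := L) hO hL P.1 P.2
  choose f hf using hex
  let Φ : DK K →ₐ[ℂ] Module.End ℂ L :=
    { toFun := f
      map_one' := ext_unique hO hU (hf 1) (ext_one hO)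
      map_mul' := fun P P' => ext_unique hO hU (hf (P * P')) (ext_mul hO (hf P) (hf P'))
      map_zero' := by
        have h := ext_smul hO 0 (hf 0)
        rw [zero_smul, zero_smul] at h
        exact ext_unique hO hU (hf 0) h
      map_add' := fun P P' => ext_unique hO hU (hf (P + P')) (ext_add hO (hf P) (hf P'))
      commutes' := fun c => by
        refine ext_unique hO hU (hf (algebraMap ℂ (DK K) c)) ?_
        rw [Algebra.algebraMap_eq_smul_one c]
        have h := ext_smul hO c (ext_one (K := K) (L := L) hO)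
        exact h }
  refine ⟨Φ, fun P a => (hf P).2 a, fun P a h => ?_, fun P h => ?_⟩
  · refine ext_unique hO hU (hf P) ?_
    rw [h]
    exact ext_mulOp hO a
  · obtain ⟨D, hD, hDa⟩ := hL K L P h
    have h1 : Φ P = D := ext_unique hO hU (hf P) ⟨⟨1, (hO L).2.1 D hD⟩, hDa⟩
    rw [h1]
    exact hD

end Pool.Agent.Helper15.DAK
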